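import Pool.Agent.H621Z.PD.Step

set_option autoImplicit false
set_option linter.unusedSectionVars false
set_option linter.unusedSimpArgs false

namespace Pool.Agent.H621Z.PD

open Finset

section perm
variable {ι : Type} [Fintype ι] [DecidableEq ι]

lemma exists_perm (H A C A' C' : Finset ι) (hAC : A ⊆ C) (hAC' : A' ⊆ C')
    (hC : Disjoint C H) (hC' : Disjoint C' H) (hA : A.card = A'.card) (hCC : C.card = C'.card) :
    ∃ π : Equiv.Perm ι, (∀ a ∈ H, π a = a) ∧ (∀ a, π a ∈ A' ↔ a ∈ A) ∧ (∀ a, π a ∈ C' ↔ a ∈ C) := by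
  classical
  let col : Finset ι → Finset ι → ι → ι ⊕ Fin 3 := fun A C a =>
    if a ∈ H then Sum.inl a else if a ∈ A then Sum.inr 0 else if a ∈ C then Sum.inr 1 else Sum.inr 2
  have hcard : ∀ (A C : Finset ι), A ⊆ C → Disjoint C H → ∀ z : ι ⊕ Fin 3,
      Fintype.card {a // col A C a = z} =
        Sum.elim (fun b => if b ∈ H then 1 else 0)
          (fun i : Fin 3 => if i = 0 then A.card else if i = 1 then C.card - A.card
            else Fintype.card ι - (H.card + C.card)) z := by
    intro A C hAC hC z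
    rw [Fintype.card_subtype]
    have hdis : ∀ a, a ∈ C → a ∉ H := fun a ha => Finset.disjoint_left.mp hC ha
    rcases z with b | i
    · simp only [Sum.elim_inl]
      split_ifs with hb
      · rw [Finset.card_eq_one]
        refine ⟨b, ?_⟩
        ext a
        simp only [col, mem_filter, mem_univ, true_and, mem_singleton]
        constructor
        · intro h; split_ifs at h <;> simp_all
        · rintro rfl; simp [hb]
      · rw [Finset.card_eq_zero]
        ext a
        simp only [col, mem_filter, mem_univ, true_and, Finset.notMem_empty, iff_false]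
        intro h; split_ifs at h <;> simp_all
    · simp only [Sum.elim_inr]
      fin_cases i
      · simp only [Fin.zero_eta, if_true]
        congr 1
        ext a
        simp only [col, mem_filter, mem_univ, true_and]
        constructor
        · intro h; split_ifs at h <;> simp_all
        · intro h; simp [h, hdis a (hAC h)]
      · simp only [Fin.mk_one, Fin.isValue, one_ne_zero, if_false, if_true]
        rw [← Finset.card_sdiff_of_subset hAC]
        congr 1
        ext a
        simp only [col, mem_filter, mem_univ, true_and, mem_sdiff]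
        constructor
        · intro h; split_ifs at h <;> simp_all
        · intro h; simp [h.1, h.2, hdis a h.1]
      · have e1 : ((⟨2, by norm_num⟩ : Fin 3) = 0) = False := by simp
        have e2 : ((⟨2, by norm_num⟩ : Fin 3) = 1) = False := by simp
        simp only [e1, e2, if_false]
        rw [← Finset.card_union_of_disjoint hC.symm, ← Finset.card_compl]
        congr 1
        ext a
        simp only [col, mem_filter, mem_univ, true_and, mem_compl, mem_union, not_or]
        constructor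
        · intro h; split_ifs at h <;> simp_all
        · intro h
          have : a ∉ A := fun h' => h.2 (hAC h')
          simp [h.1, h.2, this]
  have e : ∀ z, {a // col A C a = z} ≃ {a // col A' C' a = z} := fun z =>
    Fintype.equivOfCardEq (by rw [hcard A C hAC hC z, hcard A' C' hAC' hC' z, hA, hCC])
  have key : ∀ a, col A' C' (Equiv.ofFiberEquiv e a) = col A C a :=
    fun a => Equiv.ofFiberEquiv_map e a
  have hdis : ∀ a, a ∈ C → a ∉ H := fun a ha => Finset.disjoint_left.mp hC ha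
  have hdis' : ∀ a, a ∈ C' → a ∉ H := fun a ha => Finset.disjoint_left.mp hC' ha
  have fin : ∀ a b, col A' C' b = col A C a →
      (a ∈ H → b = a) ∧ (b ∈ A' ↔ a ∈ A) ∧ (b ∈ C' ↔ a ∈ C) := by
    intro a b h
    have h1 := hdis a
    have h2 := hdis' b
    have h3 := @hAC a
    have h4 := @hAC' b
    clear key e hcard hdis hdis' hAC hAC' hC hC' hA hCC
    simp only [col] at h
    by_cases p1 : a ∈ H <;> by_cases p2 : b ∈ H <;> by_cases p3 : a ∈ A <;>
      by_cases p4 : b ∈ A' <;> by_cases p5 : a ∈ C <;> by_cases p6 : b ∈ C' <;> simp_all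
  exact ⟨Equiv.ofFiberEquiv e, fun a ha => (fin a _ (key a)).1 ha, fun a => (fin a _ (key a)).2.1,
    fun a => (fin a _ (key a)).2.2⟩

lemma exists_chain (H : Finset ι) : ∃ V : ℕ → Finset ι, V 0 = ∅ ∧ (∀ n m, n ≤ m → V n ⊆ V m) ∧
    (∀ n, Disjoint (V n) H) ∧ ∀ n ≤ (univ \ H).card, (V n).card = n := by
  refine ⟨fun n => (((univ \ H).toList).take n).toFinset, by simp, ?_, ?_, ?_⟩
  · intro n m h a ha
    simp only [List.mem_toFinset] at ha ⊢
    exact (List.take_prefix_take_left h).subset ha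
  · intro n
    rw [Finset.disjoint_left]
    intro a ha
    simp only [List.mem_toFinset] at ha
    have := List.mem_of_mem_take ha
    simpa using this
  · intro n hn
    rw [List.toFinset_card_of_nodup ((Finset.nodup_toList _).sublist (List.take_sublist _ _))]
    simp only [List.length_take, Finset.length_toList]
    omega

end perm

/-- exchangeable and approximately stationary family of vectors -/
structure Sys {ι : Type} [Fintype ι] [DecidableEq ι] {d : ℕ} {E : Type} [NormedAddCommGroup E]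
    [InnerProductSpace ℝ E] (f : Finset (Fin d → ι) → E) (c η : ℝ) : Prop where
  c_nonneg : 0 ≤ c
  c_le : c ≤ 1
  eta_nonneg : 0 ≤ η
  norm_le : ∀ x, inner ℝ (f x) (f x) ≤ c
  perm : ∀ (π : Equiv.Perm ι) x x' y y', (∀ t, π ∘ t ∈ y ↔ t ∈ x) → (∀ t, π ∘ t ∈ y' ↔ t ∈ x') →
    inner ℝ (f y) (f y') = inner ℝ (f x) (f x')
  restr : ∀ (U : Finset ι) x x' y y', (∀ t, ¬ (∀ i, t i ∈ U) → (t ∈ x ↔ t ∈ x')) →
    (∀ t, ¬ (∀ i, t i ∈ U) → (t ∈ y ↔ t ∈ y')) → (∀ t, (∀ i, t i ∈ U) → (t ∈ x ↔ t ∈ y)) →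
    (∀ t, (∀ i, t i ∈ U) → (t ∈ x' ↔ t ∈ y')) →
    |inner ℝ (f x) (f x') - inner ℝ (f y) (f y')| ≤ η

section defs
variable {ι : Type} [Fintype ι] [DecidableEq ι] {d : ℕ}

def Sym (H : Finset ι) (Z : Finset (Fin d → ι)) : Prop :=
  ∀ π : Equiv.Perm ι, (∀ a ∈ H, π a = a) → ∀ t, π ∘ t ∈ Z ↔ t ∈ Z

def Deg (H : Finset ι) (Q : Finset (Fin d → ι)) (e : ℕ) : Prop :=
  ∀ t ∈ Q, (univ.image t \ H).card ≤ e

def XX (H : Finset ι) (Z Q : Finset (Fin d → ι)) (β : Finset ι) : Finset (Fin d → ι) :=
  Z ∪ Q.filter fun t => ∀ i, t i ∈ H ∨ t i ∈ β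

lemma mem_XX {H : Finset ι} {Z Q : Finset (Fin d → ι)} {β : Finset ι} {t : Fin d → ι} :
    t ∈ XX H Z Q β ↔ t ∈ Z ∨ (t ∈ Q ∧ ∀ i, t i ∈ H ∨ t i ∈ β) := by
  simp [XX]

lemma fix_mem {H : Finset ι} {π : Equiv.Perm ι} (hπ : ∀ a ∈ H, π a = a) (a : ι) :
    π a ∈ H ↔ a ∈ H := by
  constructor
  · intro h
    have := hπ _ h
    rw [π.injective this] at h
    exact h
  · intro h; rwa [hπ a h]

lemma XX_perm {H : Finset ι} {Z Q : Finset (Fin d → ι)} (hZ : Sym H Z) (hQ : Sym H Q)
    {π : Equiv.Perm ι} (hπ : ∀ a ∈ H, π a = a) {β β' : Finset ι} (hβ : ∀ a, π a ∈ β' ↔ a ∈ β)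
    (t : Fin d → ι) : π ∘ t ∈ XX H Z Q β' ↔ t ∈ XX H Z Q β := by
  simp only [mem_XX, hZ π hπ t, hQ π hπ t, Function.comp_apply, fix_mem hπ, hβ]

end defs

/-- the statement proved by induction on the degree -/
def Good (d e : ℕ) (p : PW) (B : ℕ) (ε : ℝ) : Prop :=
  ∀ (ι : Type) [Fintype ι] [DecidableEq ι] (E : Type) [NormedAddCommGroup E]
    [InnerProductSpace ℝ E] (f : Finset (Fin d → ι) → E) (c η : ℝ), Sys f c η → η * B ≤ 1 →
    ∀ (H : Finset ι) (Z Z' Q : Finset (Fin d → ι)), Sym H Z → Sym H Z' → Sym H Q → Deg H Q e →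
      B ≤ (univ \ H).card → ∀ β : ℕ → Finset ι,
        (∀ n ∈ p.s, (β n).card = n ∧ Disjoint (β n) H) →
        |p.Ex (fun n => inner ℝ (f Z) (f (XX H Z' Q (β n))))
          - (1 / 2) ^ e * inner ℝ (f Z) (f (XX H Z' Q ∅))| ≤ (1 - (1 / 2) ^ e) * c + ε

lemma good_zero (d : ℕ) (p : PW) {ε : ℝ} (hε : 0 ≤ ε) : Good d 0 p 0 ε := by
  intro ι _ _ E _ _ f c η _ _ H Z Z' Q _ _ _ hdeg _ β _
  have : ∀ n, XX H Z' Q (β n) = XX H Z' Q ∅ := by
    intro n
    ext t
    simp only [mem_XX, Finset.notMem_empty, or_false]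
    refine or_congr Iff.rfl (and_congr_right fun ht => ?_)
    have h0 := hdeg t ht
    have h1 : ∀ i, t i ∈ H := by
      intro i
      by_contra hi
      have : t i ∈ univ.image t \ H := by simp [hi]
      have := Finset.card_pos.mpr ⟨_, this⟩
      omega
    simp [h1]
  simp only [this, PW.Ex_const]
  simpa using hε

/-- the inner inequality: one application of the lower degree statement -/
lemma inner_step {d e : ℕ} {p : PW} {B : ℕ} {ε : ℝ} (hp : Good d e p B ε)
    {ι : Type} [Fintype ι] [DecidableEq ι] {E : Type} [NormedAddCommGroup E]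
    [InnerProductSpace ℝ E] {f : Finset (Fin d → ι) → E} {c η : ℝ} (hs : Sys f c η)
    (hη : η * B ≤ 1) {H : Finset ι} {Z' Q : Finset (Fin d → ι)} (hZ' : Sym H Z') (hQ : Sym H Q)
    (hdeg : Deg H Q (e + 1)) {V : ℕ → Finset ι} (hV0 : V 0 = ∅)
    (hVm : ∀ n m, n ≤ m → V n ⊆ V m) (hVd : ∀ n, Disjoint (V n) H)
    (hVc : ∀ n ≤ (univ \ H).card, (V n).card = n) {k M : ℕ} (hM : ∀ n ∈ p.s, n ≤ M)
    (hk : k + M ≤ (univ \ H).card) (hB : k + B ≤ (univ \ H).card) :
    p.Ex (fun n => inner ℝ (f (XX H Z' Q (V n))) (f (XX H Z' Q (V (n + k))))) ≤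
      (1 / 2) ^ e * inner ℝ (f (XX H Z' Q (V 0))) (f (XX H Z' Q (V k)))
        + (1 - (1 / 2) ^ e) * c + ε + 2 * η := by
  classical
  set h := V k with hh
  have hkc : h.card = k := hVc k (by omega)
  set H' := H ∪ h with hH'
  set Z1 : Finset (Fin d → ι) := Z' ∪ Q.filter fun t => ∀ i, t i ∉ h with hZ1
  set Z1' : Finset (Fin d → ι) := Z1 ∪ Q.filter fun t => ∀ i, t i ∈ H' with hZ1'
  set Q' : Finset (Fin d → ι) := Q.filter fun t => ∃ i, t i ∈ h with hQ'
  have hhH : ∀ a, a ∈ h → a ∉ H := fun a ha => Finset.disjoint_left.mp (hVd k) ha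
  have fixH : ∀ π : Equiv.Perm ι, (∀ a ∈ H', π a = a) → ∀ a ∈ H, π a = a :=
    fun π hπ a ha => hπ a (mem_union_left _ ha)
  have fixh : ∀ π : Equiv.Perm ι, (∀ a ∈ H', π a = a) → ∀ a, π a ∈ h ↔ a ∈ h :=
    fun π hπ => fix_mem fun a ha => hπ a (mem_union_right _ ha)
  have s1 : Sym H' Z1 := by
    intro π hπ t
    simp only [hZ1, mem_union, mem_filter, hZ' π (fixH π hπ) t, hQ π (fixH π hπ) t,
      Function.comp_apply, fixh π hπ]
  have s2 : Sym H' Z1' := by
    intro π hπ t
    have := s1 π hπ t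
    simp only [hZ1', mem_union (s := Z1), mem_filter, this, hQ π (fixH π hπ) t,
      Function.comp_apply, fix_mem hπ]
  have s3 : Sym H' Q' := by
    intro π hπ t
    simp only [hQ', mem_filter, hQ π (fixH π hπ) t, Function.comp_apply, fixh π hπ]
  have s4 : Deg H' Q' e := by
    intro t ht
    obtain ⟨ht1, i, hi⟩ := mem_filter.mp ht
    have h1 := hdeg t ht1
    have h2 : univ.image t \ H' ⊂ univ.image t \ H := by
      rw [Finset.ssubset_iff_of_subset (Finset.sdiff_subset_sdiff (Subset.refl _) subset_union_left)]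
      exact ⟨t i, by simp [hhH _ hi], by simp [hH', hi]⟩
    have := Finset.card_lt_card h2
    omega
  have s5 : B ≤ (univ \ H').card := by
    have : univ \ H' = (univ \ H) \ h := by ext a; simp [hH']
    rw [this, Finset.card_sdiff_of_subset (fun a ha => by simp [hhH a ha]), hkc]
    omega
  have s6 : ∀ n ∈ p.s, (V (n + k) \ h).card = n ∧ Disjoint (V (n + k) \ h) H' := by
    intro n hn
    have := hM n hn
    constructor
    · rw [Finset.card_sdiff_of_subset (hVm _ _ (by omega)), hkc, hVc _ (by omega)]; omega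
    · rw [hH', Finset.disjoint_union_right]
      exact ⟨(hVd _).mono_left sdiff_subset, Finset.sdiff_disjoint⟩
  have main := hp ι E f c η hs hη H' Z1 Z1' Q' s1 s2 s3 s4 s5 (fun n => V (n + k) \ h) s6
  -- compare with the chain
  have cmp : ∀ β : Finset ι, Disjoint β h →
      |inner ℝ (f Z1) (f (XX H' Z1' Q' β)) -
        inner ℝ (f (XX H Z' Q β)) (f (XX H Z' Q (β ∪ h)))| ≤ η := by
    intro β hβ
    have hβh : ∀ a, a ∈ β → a ∉ h := fun a ha => Finset.disjoint_left.mp hβ ha
    refine hs.restr (H' ∪ β) _ _ _ _ ?_ ?_ ?_ ?_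
    · intro t ht
      simp only [mem_XX, hZ1', mem_union (s := Z1), mem_filter]
      simp only [mem_union (s := H')] at ht
      constructor
      · intro h1; exact Or.inl (Or.inl h1)
      · rintro ((h1 | h1) | h1)
        · exact h1
        · exact absurd (fun i => Or.inl (h1.2 i)) ht
        · exact absurd h1.2 ht
    · intro t ht
      simp only [mem_XX, mem_union]
      simp only [hH', mem_union] at ht
      refine or_congr Iff.rfl (and_congr_right fun _ => ?_)
      constructor
      · intro h1; exact absurd (fun i => by have := h1 i; tauto) ht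
      · intro h1; exact absurd (fun i => by have := h1 i; tauto) ht
    · intro t ht
      simp only [mem_XX, hZ1, mem_union, mem_filter]
      simp only [hH', mem_union] at ht
      refine or_congr Iff.rfl (and_congr_right fun _ => ?_)
      constructor
      · intro h1 i; have := h1 i; have := ht i; tauto
      · intro h1 i hi
        rcases h1 i with h2 | h2
        · exact hhH _ hi h2
        · exact hβh _ h2 hi
    · intro t ht
      simp only [mem_XX, hZ1', hZ1, hQ', hH', mem_union, mem_filter]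
      simp only [hH', mem_union] at ht
      have ht' : ∀ i, t i ∈ H ∨ t i ∈ β ∨ t i ∈ h := fun i => by have := ht i; tauto
      constructor
      · rintro (((h1 | h1) | h1) | h1)
        · exact Or.inl h1
        · exact Or.inr ⟨h1.1, ht'⟩
        · exact Or.inr ⟨h1.1, ht'⟩
        · exact Or.inr ⟨h1.1.1, ht'⟩
      · rintro (h1 | h1)
        · exact Or.inl (Or.inl (Or.inl h1))
        · by_cases h2 : ∃ i, t i ∈ h
          · exact Or.inr ⟨⟨h1.1, h2⟩, ht⟩
          · push Not at h2
            exact Or.inl (Or.inl (Or.inr ⟨h1.1, h2⟩))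
  have cmp0 := abs_le.mp (cmp ∅ (by simp))
  rw [Finset.empty_union] at cmp0
  have hle : p.Ex (fun n => inner ℝ (f (XX H Z' Q (V n))) (f (XX H Z' Q (V (n + k))))) ≤
      p.Ex (fun n => 1 * inner ℝ (f Z1) (f (XX H' Z1' Q' (V (n + k) \ h))) + η) := by
    refine p.Ex_le fun n hn => ?_
    have hnM := hM n hn
    have c1 := abs_le.mp (cmp (V (n + k) \ h) Finset.sdiff_disjoint)
    rw [Finset.sdiff_union_of_subset (hVm _ _ (by omega))] at c1
    obtain ⟨π, hπ1, hπ2, hπ3⟩ := exists_perm H (V n) (V (n + k)) (V (n + k) \ h) (V (n + k))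
      (hVm _ _ (by omega)) sdiff_subset (hVd _) (hVd _)
      (by rw [(s6 n hn).1, hVc _ (by omega)]) rfl
    have c2 := hs.perm π _ _ _ _ (XX_perm hZ' hQ hπ1 hπ2) (XX_perm hZ' hQ hπ1 hπ3)
    rw [← c2]
    linarith [c1.1]
  rw [PW.Ex_affine] at hle
  have m2 := (abs_le.mp main).2
  rw [hV0]
  have hq : (0 : ℝ) ≤ (1 / 2) ^ e := by positivity
  have hq1 : ((1 : ℝ) / 2) ^ e ≤ 1 := pow_le_one₀ (by norm_num) (by norm_num)
  have := hs.eta_nonneg
  nlinarith [cmp0.2]

end Pool.Agent.H621Z.PD
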