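import Pool.Agent.H621Z.PD.Model

set_option autoImplicit false
set_option linter.unusedSectionVars false

namespace Pool.Agent.H621Z.PD

open Finset

section model
variable {ι : Type} [Fintype ι] [DecidableEq ι] {d N : ℕ}

noncomputable def tau (S : Finset (Finset (Fin d → Fin N))) (W : Finset ι)
    (x x' : Finset (Fin d → ι)) : ℝ :=
  sig S W x x' / ((Fintype.card (ι → Fin N) : ℝ) * (Fintype.card (Finset (Fin d → Fin N)) : ℝ))

lemma card_pos' (hN : 0 < N) : (0 : ℝ) < (Fintype.card (ι → Fin N) : ℝ) := by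
  haveI : Nonempty (Fin N) := ⟨⟨0, hN⟩⟩
  exact_mod_cast Fintype.card_pos

lemma card_pos'' : (0 : ℝ) < (Fintype.card (Finset (Fin d → Fin N)) : ℝ) := by
  exact_mod_cast Fintype.card_pos

lemma tau_insert (hN : 0 < N) (S : Finset (Finset (Fin d → Fin N))) {W : Finset ι} {v : ι}
    (hv : v ∉ W) (x x' : Finset (Fin d → ι))
    (hx : ∀ t, (∀ i, t i ∈ insert v W) → ¬ (∀ i, t i ∈ W) → (t ∈ x ↔ t ∈ x'))
    {a η : ℝ} (ha : 0 < a)
    (hη : N * 2 ^ ((Fintype.card ι + 1) ^ d) / (2 * a) + a / 2 + Fintype.card ι ≤ N * η) :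
    |tau S (insert v W) x x' - tau S W x x'| ≤ η := by
  have h := sig_insert S hv x x' hx ha
  have h1 := card_pos' (ι := ι) hN
  have h2 := card_pos'' (d := d) (N := N)
  have hN' : (0 : ℝ) < N := by exact_mod_cast hN
  unfold tau
  rw [← sub_div, abs_div, abs_of_pos (mul_pos h1 h2), div_le_iff₀ (mul_pos h1 h2)]
  rw [← mul_sub, abs_mul, abs_of_pos hN'] at h
  have h3 := mul_le_mul_of_nonneg_left (mul_le_mul_of_nonneg_left hη h2.le) h1.le
  have h4 := h.trans h3
  refine le_of_mul_le_mul_left (h4.trans (le_of_eq ?_)) hN'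
  ring

lemma tau_restr (hN : 0 < N) (S : Finset (Finset (Fin d → Fin N))) (U : Finset ι)
    (x x' : Finset (Fin d → ι)) (hx : ∀ t, ¬ (∀ i, t i ∈ U) → (t ∈ x ↔ t ∈ x'))
    {a η : ℝ} (ha : 0 < a) (hη0 : 0 ≤ η)
    (hη : N * 2 ^ ((Fintype.card ι + 1) ^ d) / (2 * a) + a / 2 + Fintype.card ι ≤ N * η) :
    |tau S univ x x' - tau S U x x'| ≤ Fintype.card ι * η := by
  have key : ∀ W : Finset ι, |tau S (U ∪ W) x x' - tau S U x x'| ≤ W.card * η := by
    intro W
    induction W using Finset.induction_on with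
    | empty => simp
    | insert v W hv ih =>
      rw [card_insert_of_notMem hv, union_insert]
      push_cast
      by_cases h : v ∈ U ∪ W
      · rw [insert_eq_of_mem h]; linarith
      · have := tau_insert hN S h x x'
          (fun t _ h2 => hx t fun h3 => h2 fun i => mem_union_left _ (h3 i)) ha hη
        have h5 := abs_sub_le (tau S (insert v (U ∪ W)) x x') (tau S (U ∪ W) x x') (tau S U x x')
        linarith
  have := key univ
  rwa [union_eq_right.mpr (subset_univ U), card_univ] at this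

lemma cfg_congr (φ : ι → Fin N) (U : Finset ι) {x y : Finset (Fin d → ι)}
    (h : ∀ t, (∀ i, t i ∈ U) → (t ∈ x ↔ t ∈ y)) (A : Finset (Fin d → Fin N)) :
    cfg φ U x A = cfg φ U y A := by
  unfold cfg
  congr 2
  ext t
  simp only [mem_filter]
  exact and_congr_left fun ht => h t ht

lemma tau_congr (S : Finset (Finset (Fin d → Fin N))) (U : Finset ι)
    {x x' y y' : Finset (Fin d → ι)} (h : ∀ t, (∀ i, t i ∈ U) → (t ∈ x ↔ t ∈ y))
    (h' : ∀ t, (∀ i, t i ∈ U) → (t ∈ x' ↔ t ∈ y')) : tau S U x x' = tau S U y y' := by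
  unfold tau sig
  simp only [cfg_congr _ U h, cfg_congr _ U h']

lemma cfg_perm (φ : ι → Fin N) (π : Equiv.Perm ι) {x y : Finset (Fin d → ι)}
    (h : ∀ t, π ∘ t ∈ y ↔ t ∈ x) (A : Finset (Fin d → Fin N)) :
    cfg φ univ y A = cfg (φ ∘ π) univ x A := by
  unfold cfg
  have e : (univ : Finset ι).image (φ ∘ π) = univ.image φ := by
    rw [← Finset.image_image, Finset.image_univ_equiv]
  rw [e]
  congr 1
  ext s
  simp only [mem_image, mem_filter, mem_univ, implies_true, and_true]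
  constructor
  · rintro ⟨t, ht, rfl⟩
    refine ⟨π.symm ∘ t, (h _).mp ?_, ?_⟩
    · have : π ∘ π.symm ∘ t = t := by ext i; simp
      rwa [this]
    · ext i; simp
  · rintro ⟨t, ht, rfl⟩
    exact ⟨π ∘ t, (h t).mpr ht, rfl⟩

lemma tau_perm (S : Finset (Finset (Fin d → Fin N))) (π : Equiv.Perm ι)
    {x x' y y' : Finset (Fin d → ι)} (h : ∀ t, π ∘ t ∈ y ↔ t ∈ x)
    (h' : ∀ t, π ∘ t ∈ y' ↔ t ∈ x') : tau S univ y y' = tau S univ x x' := by
  unfold tau sig
  congr 1
  simp only [cfg_perm _ π h, cfg_perm _ π h']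
  exact Fintype.sum_equiv (Equiv.arrowCongr π.symm (Equiv.refl _)) _ _ fun φ => rfl

lemma tau_empty (hN : 0 < N) (hd : 1 ≤ d) (S : Finset (Finset (Fin d → Fin N)))
    (x : Finset (Fin d → ι)) :
    tau S ∅ x x = S.card / (Fintype.card (Finset (Fin d → Fin N)) : ℝ) := by
  have hc : ∀ (φ : ι → Fin N) A, cfg φ ∅ x A = A := by
    intro φ A
    unfold cfg
    ext s
    simp only [mem_union, mem_sdiff, Fintype.mem_piFinset, mem_image, mem_filter, image_empty,
      notMem_empty]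
    constructor
    · rintro (h | ⟨t, ⟨-, h⟩, -⟩)
      · exact h.1
      · exact (h ⟨0, hd⟩).elim
    · intro h; exact Or.inl ⟨h, fun h' => h' ⟨0, hd⟩⟩
  have h1 := card_pos' (ι := ι) hN
  have h2 := card_pos'' (d := d) (N := N)
  unfold tau sig
  simp only [hc]
  have : ∑ A : Finset (Fin d → Fin N), ind S A * ind S A = S.card := by
    have : ∀ A, ind S A * ind S A = if A ∈ S then 1 else 0 := by
      intro A; unfold ind; split_ifs <;> simp
    simp [this]
  rw [this, Finset.sum_const, card_univ, nsmul_eq_mul]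
  field_simp

lemma tau_bad (S : Finset (Finset (Fin d → Fin N)))
    (hS : ∀ A ∈ S, ∀ γ : Finset (Fin N), γ.Nonempty →
      Disjoint A (Fintype.piFinset fun _ : Fin d => γ) →
        A ∪ (Fintype.piFinset fun _ : Fin d => γ) ∉ S)
    {β : Finset ι} (hβ : β.Nonempty) {x x' : Finset (Fin d → ι)} (hx : x = ∅)
    (hx' : ∀ t, t ∈ x' ↔ ∀ i, t i ∈ β) : tau S univ x x' = 0 := by
  unfold tau sig
  rw [Finset.sum_eq_zero, zero_div]
  intro φ _
  refine Finset.sum_eq_zero fun A _ => ?_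
  have e1 : cfg φ univ x A = A \ Fintype.piFinset fun _ => univ.image φ := by
    unfold cfg; simp [hx]
  have e2 : cfg φ univ x' A = cfg φ univ x A ∪ Fintype.piFinset fun _ : Fin d => β.image φ := by
    rw [e1]
    unfold cfg
    congr 1
    ext s
    simp only [mem_image, mem_filter, mem_univ, implies_true, and_true, Fintype.mem_piFinset, hx']
    constructor
    · rintro ⟨t, ht, rfl⟩ i
      exact ⟨t i, ht i, rfl⟩
    · intro h
      choose t ht using h
      exact ⟨t, fun i => (ht i).1, funext fun i => (ht i).2⟩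
  unfold ind
  by_cases h1 : cfg φ univ x A ∈ S
  · have := hS _ h1 (β.image φ) (hβ.image φ) (by
      rw [e1]
      refine Finset.sdiff_disjoint.mono_right ?_
      exact Fintype.piFinset_subset _ _ fun _ => image_subset_image (subset_univ β))
    rw [e2, if_neg this, mul_zero]
  · rw [if_neg h1, zero_mul]

noncomputable def vec (S : Finset (Finset (Fin d → Fin N))) (δ : ℝ) (x : Finset (Fin d → ι)) :
    EuclideanSpace ℝ ((ι → Fin N) × Finset (Fin d → Fin N)) :=
  WithLp.toLp 2 fun ω => (ind S (cfg ω.1 univ x ω.2) - δ) /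
    Real.sqrt ((Fintype.card (ι → Fin N) : ℝ) * (Fintype.card (Finset (Fin d → Fin N)) : ℝ))

lemma inner_vec (hN : 0 < N) (S : Finset (Finset (Fin d → Fin N))) (δ : ℝ)
    (x x' : Finset (Fin d → ι)) :
    inner ℝ (vec S δ x) (vec S δ x') =
      tau S univ x x' - δ * tau S univ x x - δ * tau S univ x' x' + δ ^ 2 := by
  have h1 := card_pos' (ι := ι) hN
  have h2 := card_pos'' (d := d) (N := N)
  have h3 := mul_pos h1 h2
  unfold vec tau sig
  generalize hC : (Fintype.card (ι → Fin N) : ℝ) * (Fintype.card (Finset (Fin d → Fin N)) : ℝ) = C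
    at h3 ⊢
  rw [PiLp.inner_apply]
  simp only [RCLike.inner_apply, conj_trivial]
  have hi : ∀ B, ind S B * ind S B = ind S B := by
    intro B; unfold ind; split_ifs <;> simp
  have e : ∀ p q : ℝ, (p - δ) / Real.sqrt C * ((q - δ) / Real.sqrt C) =
      (q * p - δ * q - δ * p + δ ^ 2) / C := by
    intro p q
    rw [div_mul_div_comm, Real.mul_self_sqrt h3.le]; ring
  simp only [e, hi]
  rw [← Finset.sum_div, Fintype.sum_prod_type]
  simp only [Finset.sum_add_distrib, Finset.sum_sub_distrib, ← Finset.mul_sum, Finset.sum_const,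
    card_univ, nsmul_eq_mul]
  rw [← mul_assoc, mul_comm (Fintype.card (Finset (Fin d → Fin N)) : ℝ), hC]
  field_simp

end model

theorem main (d : ℕ) (hd : 1 ≤ d) (δ : ℝ) (hδ : ((2 : ℝ) ^ (d - 1) - 1) / (2 ^ d - 1) < δ) :
    ∃ N₀ : ℕ, ∀ N : ℕ, N₀ ≤ N → ∀ S : Finset (Finset (Fin d → Fin N)),
      (S.card : ℝ) > δ * (2 : ℝ) ^ (N ^ d) →
        ∃ A ∈ S, ∃ γ : Finset (Fin N), γ.Nonempty ∧
          Disjoint A (Fintype.piFinset (fun _ : Fin d => γ)) ∧
          A ∪ Fintype.piFinset (fun _ : Fin d => γ) ∈ S := by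
  set μ : ℝ := (1 / 2) ^ d with hμ
  obtain ⟨d', rfl⟩ : ∃ d', d = d' + 1 := ⟨d - 1, by omega⟩
  have hq : (1 : ℝ) ≤ 2 ^ d' := one_le_pow₀ (by norm_num)
  have hμq : μ * (2 * 2 ^ d') = 1 := by
    rw [hμ, ← pow_succ', ← mul_pow]; norm_num
  have hμ0 : 0 < μ := by positivity
  have hμ1 : μ ≤ 1 / 2 := by nlinarith
  simp only [Nat.add_sub_cancel] at hδ
  rw [div_lt_iff₀ (by rw [pow_succ]; linarith), pow_succ] at hδ
  have hδ0 : 0 < δ := by
    by_contra h
    nlinarith
  have hg : 0 < δ * (2 - 2 * μ) - (1 - 2 * μ) := by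
    have := mul_lt_mul_of_pos_left hδ (show 0 < 2 * μ by positivity)
    nlinarith
  set γ0 : ℝ := δ * (δ * (2 - 2 * μ) - (1 - 2 * μ)) with hγ0
  have hγ : 0 < γ0 := mul_pos hδ0 hg
  obtain ⟨p, B, -, hp⟩ := exists_good (d' + 1) (d' + 1) (γ0 / 4) (by positivity) 0
  set n : ℕ := B + p.s.sup id + 1 with hn
  have hn0 : (0 : ℝ) < n := by positivity
  set η : ℝ := min (min (γ0 / 8) (1 / 2)) (1 / (6 * (B + 1))) with hη
  have hη0 : 0 < η := lt_min (lt_min (by positivity) (by norm_num)) (by positivity)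
  have hη1 : η ≤ γ0 / 8 := (min_le_left _ _).trans (min_le_left _ _)
  have hη2 : η ≤ 1 / 2 := (min_le_left _ _).trans (min_le_right _ _)
  have hη3 : η ≤ 1 / (6 * (B + 1)) := min_le_right _ _
  set θ : ℝ := η / n with hθ
  have hθ0 : 0 < θ := by positivity
  set K : ℝ := 2 ^ ((n + 1) ^ (d' + 1)) with hK
  obtain ⟨N₀, hN₀⟩ := exists_nat_gt ((K / θ + 2 * n) / θ)
  refine ⟨N₀, fun N hN S hS => ?_⟩
  have hNr : (K / θ + 2 * n) / θ < N := hN₀.trans_le (by exact_mod_cast hN)
  have hN0 : (0 : ℝ) < N := lt_of_le_of_lt (by positivity) hNr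
  have hN1 : 0 < N := by exact_mod_cast hN0
  by_contra hbad
  push Not at hbad
  have hcond : (N : ℝ) * 2 ^ ((Fintype.card (Fin n) + 1) ^ (d' + 1)) / (2 * (θ * N)) + θ * N / 2
      + Fintype.card (Fin n) ≤ N * θ := by
    rw [Fintype.card_fin, ← hK]
    have e : (N : ℝ) * K / (2 * (θ * N)) = K / θ / 2 := by field_simp
    rw [e]
    rw [div_lt_iff₀ hθ0] at hNr
    linarith
  have hres : ∀ (U : Finset (Fin n)) (x x' : Finset (Fin (d' + 1) → Fin n)),
      (∀ t, ¬ (∀ i, t i ∈ U) → (t ∈ x ↔ t ∈ x')) → |tau S univ x x' - tau S U x x'| ≤ η := by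
    intro U x x' hx
    have := tau_restr hN1 S U x x' hx (mul_pos hθ0 hN0) hθ0.le hcond
    rw [Fintype.card_fin] at this
    refine this.trans (le_of_eq ?_)
    rw [hθ]; field_simp
  set δ0 : ℝ := S.card / (Fintype.card (Finset (Fin (d' + 1) → Fin N)) : ℝ) with hδ0def
  have hT := card_pos'' (d := d' + 1) (N := N)
  have hδδ : δ < δ0 := by
    rw [hδ0def, lt_div_iff₀ hT]
    simpa using hS
  have hδ1 : δ0 ≤ 1 := by
    rw [hδ0def, div_le_one hT]
    exact_mod_cast card_le_univ S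
  have hδp : 0 < δ0 := hδ0.trans hδδ
  have hdiag : ∀ x : Finset (Fin (d' + 1) → Fin n), |tau S univ x x - δ0| ≤ η := by
    intro x
    have := hres ∅ x x (fun _ _ => Iff.rfl)
    rwa [tau_empty hN1 hd] at this
  have hmul : ∀ x : Finset (Fin (d' + 1) → Fin n), |δ0 * tau S univ x x - δ0 ^ 2| ≤ η := by
    intro x
    have : δ0 * tau S univ x x - δ0 ^ 2 = δ0 * (tau S univ x x - δ0) := by ring
    rw [this, abs_mul, abs_of_pos hδp]
    exact (mul_le_of_le_one_left (abs_nonneg _) hδ1).trans (hdiag x)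
  have hself : ∀ x : Finset (Fin (d' + 1) → Fin n),
      |inner ℝ (vec S δ0 x) (vec S δ0 x) - (δ0 - δ0 ^ 2)| ≤ η := by
    intro x
    rw [inner_vec hN1]
    have : tau S univ x x - δ0 * tau S univ x x - δ0 * tau S univ x x + δ0 ^ 2 - (δ0 - δ0 ^ 2) =
        (1 - 2 * δ0) * (tau S univ x x - δ0) := by ring
    rw [this, abs_mul]
    refine (mul_le_of_le_one_left (abs_nonneg _) ?_).trans (hdiag x)
    rw [abs_le]; constructor <;> linarith
  have hsys : Sys (vec (ι := Fin n) S δ0) (δ0 - δ0 ^ 2 + η) (6 * η) := by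
    refine ⟨by nlinarith, by nlinarith, by positivity, fun x => ?_, ?_, ?_⟩
    · linarith [(abs_le.mp (hself x)).2]
    · intro π x x' y y' h h'
      rw [inner_vec hN1, inner_vec hN1, tau_perm S π h h', tau_perm S π h h, tau_perm S π h' h']
    · intro U x x' y y' h1 h2 h3 h4
      rw [inner_vec hN1, inner_vec hN1]
      have a1 := abs_le.mp (hres U x x' h1)
      have a2 := abs_le.mp (hres U y y' h2)
      rw [tau_congr S U h3 h4] at a1
      have a3 := abs_le.mp (hmul x)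
      have a4 := abs_le.mp (hmul x')
      have a5 := abs_le.mp (hmul y)
      have a6 := abs_le.mp (hmul y')
      rw [abs_le]
      constructor <;> linarith [a1.1, a1.2, a2.1, a2.2, a3.1, a3.2, a4.1, a4.2, a5.1, a5.2,
        a6.1, a6.2]
  obtain ⟨V, -, -, hVd, hVc⟩ := exists_chain (∅ : Finset (Fin n))
  have hcard : (univ \ (∅ : Finset (Fin n))).card = n := by simp
  have hVc' : ∀ m ∈ p.s, (V m).card = m := by
    intro m hm
    have : m ≤ p.s.sup id := Finset.le_sup (f := id) hm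
    exact hVc m (by omega)
  have hηB : 6 * η * B ≤ 1 := by
    rw [le_div_iff₀ (by positivity)] at hη3
    nlinarith
  have main := hp (Fin n) _ (vec S δ0) _ _ hsys hηB ∅ ∅ ∅ univ (fun _ _ _ => by simp)
    (fun _ _ _ => by simp) (fun _ _ _ => by simp)
    (fun t _ => (card_le_card sdiff_subset).trans (card_image_le.trans (by simp)))
    (by omega) V (fun m hm => ⟨hVc' m hm, hVd m⟩)
  have e0 : XX (∅ : Finset (Fin n)) (∅ : Finset (Fin (d' + 1) → Fin n)) univ ∅ = ∅ := by
    ext t; simp [mem_XX]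
  rw [e0, ← hμ] at main
  have up : p.Ex (fun m => inner ℝ (vec S δ0 (∅ : Finset (Fin (d' + 1) → Fin n)))
      (vec S δ0 (XX ∅ ∅ univ (V m)))) ≤ - δ0 ^ 2 + 2 * η := by
    refine p.Ex_le_const fun m hm => ?_
    have hne : (V m).Nonempty := by
      rw [← card_pos, hVc' m hm]; exact p.pos m hm
    rw [inner_vec hN1, tau_bad S hbad hne rfl (fun t => by simp [mem_XX])]
    have a3 := abs_le.mp (hmul ∅)
    have a4 := abs_le.mp (hmul (XX ∅ ∅ univ (V m)))
    linarith [a3.1, a4.1]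
  have lo := (abs_le.mp main).1
  have s0 := (abs_le.mp (hself ∅)).1
  have s1 : μ * (δ0 - δ0 ^ 2 - η) ≤ μ * inner ℝ (vec S δ0 (∅ : Finset (Fin (d' + 1) → Fin n)))
      (vec S δ0 ∅) := mul_le_mul_of_nonneg_left (by linarith) hμ0.le
  have s2 : δ0 * (δ0 * (2 - 2 * μ) - (1 - 2 * μ)) ≤ 3 * η + γ0 / 4 := by nlinarith
  have s3 : γ0 ≤ δ0 * (δ0 * (2 - 2 * μ) - (1 - 2 * μ)) := by
    rw [hγ0]
    refine mul_le_mul hδδ.le ?_ hg.le hδp.le
    nlinarith
  linarith

end Pool.Agent.H621Z.PD
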