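import Pool.Agent.H621Z.PD.Abstract

set_option autoImplicit false

namespace Pool.Agent.H621Z.PD

open Finset

theorem exists_good (d e : ℕ) : ∀ ε : ℝ, 0 < ε → ∀ s0 : ℕ,
    ∃ (p : PW) (B : ℕ), p.Inv s0 ε ∧ Good d e p B ε := by
  induction e with
  | zero =>
    intro ε hε s0
    obtain ⟨p, hp⟩ := PW.exists_inv s0 hε
    exact ⟨p, 0, hp, good_zero d p hε.le⟩
  | succ e ih =>
    intro ε hε s0
    set ε' : ℝ := ε / 2 with hε'
    have hε'0 : 0 < ε' := by positivity
    set θ : ℝ := min ε (ε' ^ 2 / 9) with hθ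
    have hθ0 : 0 < θ := lt_min hε (by positivity)
    have hθ1 : θ ≤ ε := min_le_left _ _
    have hθ2 : θ ≤ ε' ^ 2 / 9 := min_le_right _ _
    choose W Bf hW using ih θ hθ0
    obtain ⟨r, hr⟩ := exists_nat_gt (6 / ε' ^ 2)
    have hr0 : (0 : ℝ) < r := lt_of_le_of_lt (by positivity) hr
    have hr1 : 0 < r := by exact_mod_cast hr0
    obtain ⟨D, hD⟩ := exists_nat_gt (12 * r / ε' ^ 2)
    have hD0 : (0 : ℝ) < D := lt_of_le_of_lt (by positivity) hD
    have hD1 : 0 < D := by exact_mod_cast hD0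
    obtain ⟨K, hK⟩ := exists_nat_gt (2 / θ)
    let s : ℕ → ℕ := fun j => Nat.rec s0 (fun _ x => max x ((W x).s.sup id)) j
    have hs0 : s 0 = s0 := rfl
    have hsucc : ∀ j, s (j + 1) = max (s j) ((W (s j)).s.sup id) := fun j => rfl
    have hmono : Monotone s := monotone_nat_of_le_succ fun j => by rw [hsucc]; exact le_max_left _ _
    have hsupp : ∀ j j', j < j' → ∀ n ∈ (W (s j)).s, n ≤ s j' := by
      intro j j' h n hn
      have h1 : n ≤ s (j + 1) := by
        rw [hsucc]
        exact le_max_of_le_right (Finset.le_sup (f := id) hn)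
      exact h1.trans (hmono h)
    set M := s (D + r) with hM
    set B0 := (range (D + r)).sup fun j => Bf (s j) with hB0
    have hne : (range D ×ˢ range r).Nonempty := by
      simp [Finset.nonempty_range_iff, hD1.ne', hr1.ne']
    refine ⟨PW.avg (range D ×ˢ range r) hne (fun js => W (s (js.1 + js.2))), 2 * M + B0 + K,
      ?_, ?_⟩
    · refine PW.inv_avg _ _ _ fun js _ => ?_
      exact (hW _).1.mono (hs0 ▸ hmono (Nat.zero_le _)) hθ1
    intro ι _ _ E _ _ f c η hsys hη H Z Z' Q hZ hZ' hQ hdeg hB β hβ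
    obtain ⟨V, hV0, hVm, hVd, hVc⟩ := exists_chain H
    have hη0 := hsys.eta_nonneg
    have hηθ : 2 * η ≤ θ := by
      have h1 : η * K ≤ 1 := by
        refine le_trans (mul_le_mul_of_nonneg_left ?_ hη0) hη
        exact_mod_cast (by omega : K ≤ 2 * M + B0 + K)
      rw [div_lt_iff₀ hθ0] at hK
      nlinarith
    set v : ℕ → E := fun n => f (XX H Z' Q (V n)) with hv
    have hvn : ∀ n, inner ℝ (v n) (v n) ≤ c := fun n => hsys.norm_le _
    set Y : ℕ → E := fun j => (W (s j)).Ex v with hY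
    have key : ∀ j j', j < j' → j' < D + r →
        inner ℝ (Y j) (Y j') ≤ 2 * (1 / 2) ^ (e + 1) * inner ℝ (v 0) (Y j')
          + (1 - 2 * (1 / 2) ^ (e + 1)) * c + 3 * θ := by
      intro j j' hjj hj'
      have hBj : Bf (s j) ≤ B0 :=
        Finset.le_sup (f := fun j => Bf (s j)) (mem_range.mpr (by omega))
      have hη' : η * Bf (s j) ≤ 1 := by
        refine le_trans (mul_le_mul_of_nonneg_left ?_ hη0) hη
        exact_mod_cast (by omega : Bf (s j) ≤ 2 * M + B0 + K)
      have a1 : inner ℝ (Y j) (Y j') ≤ (W (s j)).Ex (fun n =>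
          1 * (W (s j')).Ex (fun k => inner ℝ (v n) (v (n + k))) + θ) := by
        simp only [hY]
        rw [PW.Ex_inner]
        refine PW.Ex_le _ fun n hn => ?_
        rw [PW.inner_Ex]
        have := (hW (s j')).1 (fun m => inner ℝ (v n) (v m))
          (fun m => (abs_inner_le_of (hvn n) (hvn m)).trans hsys.c_le) n (hsupp j j' hjj n hn)
        have h2 := (abs_le.mp this).1
        simp only [add_comm n]
        linarith
      rw [PW.Ex_affine, PW.Ex_comm] at a1
      have a2 : (W (s j')).Ex (fun k => (W (s j)).Ex (fun n => inner ℝ (v n) (v (n + k)))) ≤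
          (W (s j')).Ex (fun k => (1 / 2) ^ e * inner ℝ (v 0) (v k) +
            ((1 - (1 / 2) ^ e) * c + 2 * θ)) := by
        refine PW.Ex_le _ fun k hk => ?_
        have hkM : k ≤ M := hsupp j' (D + r) hj' k hk
        have := inner_step (hW (s j)).2 hsys hη' hZ' hQ hdeg hV0 hVm hVd hVc (k := k) (M := M)
          (fun n hn => hsupp j (D + r) (by omega) n hn) (by omega) (by omega)
        simp only [hv]
        linarith
      rw [PW.Ex_affine, ← PW.inner_Ex] at a2
      have e1 : (2 : ℝ) * (1 / 2) ^ (e + 1) = (1 / 2) ^ e := by ring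
      rw [e1]
      simp only [hY] at a1 ⊢
      linarith
    have hq : (0 : ℝ) ≤ (1 / 2) ^ (e + 1) := by positivity
    have hq1 : ((1 : ℝ) / 2) ^ (e + 1) ≤ 1 / 2 := by
      rw [pow_succ]
      have : ((1 : ℝ) / 2) ^ e ≤ 1 := pow_le_one₀ (by norm_num) (by norm_num)
      linarith
    have hsmall : 3 * θ + 2 / r + 4 * r / D ≤ ε' ^ 2 := by
      have h1 : (2 : ℝ) / r ≤ ε' ^ 2 / 3 := by
        rw [div_lt_iff₀ (by positivity)] at hr
        rw [div_le_iff₀ hr0]; linarith
      have h2 : (4 : ℝ) * r / D ≤ ε' ^ 2 / 3 := by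
        rw [div_lt_iff₀ (by positivity)] at hD
        rw [div_le_iff₀ hD0]; linarith
      linarith
    have main := analytic_step Y (v 0) (f Z) hr1 hD1 hsys.c_nonneg hsys.c_le hq hq1 hε'0
      (by positivity) (fun j => inner_Ex_self_le _ v hvn) (hvn 0) (hsys.norm_le Z) key hsmall
    have e1 : (PW.avg (range D ×ˢ range r) hne (fun js => W (s (js.1 + js.2)))).Ex
        (fun n => inner ℝ (f Z) (f (XX H Z' Q (β n)))) =
        (1 / ((D : ℝ) * r)) * ∑ j ∈ range D, ∑ t ∈ range r, inner ℝ (f Z) (Y (j + t)) := by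
      rw [PW.Ex_congr _ (h := fun n => inner ℝ (f Z) (v n))]
      · rw [PW.Ex_avg, Finset.sum_product]
        simp only [hY, PW.inner_Ex, card_product, card_range]
        push_cast
        rfl
      · intro n hn
        obtain ⟨js, hjs, hn'⟩ := PW.mem_avg _ _ _ hn
        obtain ⟨h1, h2⟩ := mem_product.mp hjs
        have hnM : n ≤ M := hsupp _ (D + r)
          (by have := mem_range.mp h1; have := mem_range.mp h2; omega) n hn'
        obtain ⟨hb1, hb2⟩ := hβ n hn
        obtain ⟨π, hπ1, hπ2, -⟩ := exists_perm H (V n) (V n) (β n) (β n) (Subset.refl _)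
          (Subset.refl _) (hVd n) hb2 (by rw [hb1, hVc n (by omega)])
          (by rw [hb1, hVc n (by omega)])
        exact hsys.perm π _ _ _ _ (hZ π hπ1) (XX_perm hZ' hQ hπ1 hπ2)
    rw [e1]
    have e2 : v 0 = f (XX H Z' Q ∅) := by simp only [hv, hV0]
    rw [e2] at main
    refine main.trans (le_of_eq ?_)
    rw [hε']; ring

end Pool.Agent.H621Z.PD
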