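import Pool.Agent.H621Z.PD.Induct

set_option autoImplicit false
set_option linter.unusedSectionVars false

namespace Pool.Agent.H621Z.PD

open Finset

section count
variable {X : Type} [Fintype X] [DecidableEq X]

lemma count_ov (R y : Finset X) (hy : y ⊆ R) (g : Finset X → ℝ) :
    ∑ A : Finset X, g ((A \ R) ∪ y) =
      2 ^ R.card * ∑ A : Finset X, if A ∩ R = y then g A else 0 := by
  have h1 : ∑ A : Finset X, g ((A \ R) ∪ y) =
      ∑ p ∈ (univ : Finset (Finset X)) ×ˢ R.powerset,
        if p.2 = y then g ((p.1 \ R) ∪ p.2) else 0 := by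
    rw [Finset.sum_product]
    refine Finset.sum_congr rfl fun A _ => ?_
    rw [Finset.sum_ite_eq' R.powerset y (fun C => g ((A \ R) ∪ C)), if_pos (mem_powerset.mpr hy)]
  have h2 : (2 : ℝ) ^ R.card * ∑ A : Finset X, (if A ∩ R = y then g A else 0) =
      ∑ p ∈ (univ : Finset (Finset X)) ×ˢ R.powerset, if p.1 ∩ R = y then g p.1 else 0 := by
    rw [Finset.sum_product, Finset.mul_sum]
    refine Finset.sum_congr rfl fun A _ => ?_
    simp
  rw [h1, h2]
  have inv : ∀ p : Finset X × Finset X, p.2 ⊆ R →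
      ((((p.1 \ R) ∪ p.2) \ R) ∪ (p.1 ∩ R), ((p.1 \ R) ∪ p.2) ∩ R) = p := by
    rintro ⟨A, C⟩ hC
    refine Prod.ext ?_ ?_
    · ext a
      have := @hC a
      simp only [mem_union, mem_sdiff, mem_inter] at this ⊢
      tauto
    · ext a
      have := @hC a
      simp only [mem_union, mem_sdiff, mem_inter] at this ⊢
      tauto
  refine Finset.sum_nbij' (fun p => ((p.1 \ R) ∪ p.2, p.1 ∩ R))
    (fun p => ((p.1 \ R) ∪ p.2, p.1 ∩ R)) ?_ ?_ ?_ ?_ ?_
  · intro p _; simp
  · intro p _; simp
  · intro p hp; exact inv p (by simpa using hp)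
  · intro p hp; exact inv p (by simpa using hp)
  · intro p hp
    have := congrArg Prod.snd (inv p (by simpa using hp))
    simp only at this ⊢
    rw [this]

lemma var_ov {κ : Type} [DecidableEq κ] (M : Finset κ) (R y : κ → Finset X)
    (hy : ∀ u ∈ M, y u ⊆ R u) (hd : ∀ u ∈ M, ∀ u' ∈ M, u ≠ u' → Disjoint (R u) (R u'))
    {K a : ℝ} (hK : ∀ u ∈ M, (2 : ℝ) ^ (R u).card ≤ K) (ha : 0 < a)
    (g : Finset X → ℝ) (hg : ∀ A, |g A| ≤ 1) :
    |∑ u ∈ M, ∑ A : Finset X, g ((A \ R u) ∪ y u) - M.card * ∑ A : Finset X, g A| ≤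
      Fintype.card (Finset X) * (M.card * K / (2 * a) + a / 2) := by
  set T : ℝ := (Fintype.card (Finset X) : ℝ) with hT
  set z : κ → Finset X → ℝ := fun u A => if A ∩ R u = y u then 2 ^ (R u).card else 0 with hz
  have hzg : ∀ u ∈ M, ∀ G : Finset X → ℝ,
      ∑ A : Finset X, G ((A \ R u) ∪ y u) = ∑ A : Finset X, z u A * G A := by
    intro u hu G
    rw [count_ov _ _ (hy u hu), Finset.mul_sum]
    refine Finset.sum_congr rfl fun A _ => ?_
    simp only [hz]; split_ifs <;> simp
  have hz1 : ∀ u ∈ M, ∑ A : Finset X, z u A = T := by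
    intro u hu
    have := hzg u hu (fun _ => 1)
    simp only [mul_one, Finset.sum_const, card_univ, nsmul_eq_mul] at this
    rw [← this]
  have hz2 : ∀ u ∈ M, ∀ u' ∈ M, ∑ A : Finset X, (z u A - 1) * (z u' A - 1) ≤
      if u = u' then K * T else 0 := by
    intro u hu u' hu'
    have e : ∑ A : Finset X, (z u A - 1) * (z u' A - 1) =
        ∑ A : Finset X, z u A * z u' A - T := by
      have : ∀ A, (z u A - 1) * (z u' A - 1) = z u A * z u' A - z u A - z u' A + 1 :=
        fun A => by ring
      simp only [this, Finset.sum_add_distrib, Finset.sum_sub_distrib, hz1 u hu, hz1 u' hu']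
      simp only [Finset.sum_const, card_univ, nsmul_eq_mul, mul_one]
      ring
    rw [e, ← hzg u hu (z u')]
    split_ifs with h
    · subst h
      have h1 : ∀ A : Finset X, z u ((A \ R u) ∪ y u) ≤ K := by
        intro A
        simp only [hz]
        split_ifs
        · exact hK u hu
        · exact le_trans (by positivity) (hK u hu)
      have := Finset.sum_le_card_nsmul univ _ K (fun A _ => h1 A)
      simp only [card_univ, nsmul_eq_mul] at this
      have hT0 : 0 ≤ T := by positivity
      linarith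
    · have h1 : ∀ A : Finset X, z u' ((A \ R u) ∪ y u) = z u' A := by
        intro A
        have : ((A \ R u) ∪ y u) ∩ R u' = A ∩ R u' := by
          ext b
          have h2 : b ∈ R u → b ∉ R u' := fun hb => Finset.disjoint_left.mp (hd u hu u' hu' h) hb
          have h3 := @hy u hu b
          simp only [mem_union, mem_sdiff, mem_inter]
          tauto
        simp only [hz, this]
      simp only [h1, hz1 u' hu']
      simp
  set G : Finset X → ℝ := fun A => ∑ u ∈ M, (z u A - 1) with hG
  have hG2 : ∑ A : Finset X, G A ^ 2 ≤ M.card * (K * T) := by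
    have : ∀ A, G A ^ 2 = ∑ u ∈ M, ∑ u' ∈ M, (z u A - 1) * (z u' A - 1) := by
      intro A; rw [sq, hG, Finset.sum_mul_sum]
    simp only [this]
    rw [Finset.sum_comm]
    have h2 : ∀ u ∈ M, ∑ A : Finset X, ∑ u' ∈ M, (z u A - 1) * (z u' A - 1) ≤ K * T := by
      intro u hu
      rw [Finset.sum_comm]
      refine (Finset.sum_le_sum (hz2 u hu)).trans ?_
      rw [Finset.sum_ite_eq, if_pos hu]
    have := Finset.sum_le_card_nsmul M _ _ h2
    simpa using this
  have e : ∑ u ∈ M, ∑ A : Finset X, g ((A \ R u) ∪ y u) - M.card * ∑ A : Finset X, g A =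
      ∑ A : Finset X, G A * g A := by
    rw [Finset.sum_congr rfl (fun u hu => hzg u hu g), Finset.sum_comm, Finset.mul_sum,
      ← Finset.sum_sub_distrib]
    refine Finset.sum_congr rfl fun A _ => ?_
    simp only [hG, Finset.sum_sub_distrib, Finset.sum_const, nsmul_eq_mul, mul_one, sub_mul,
      Finset.sum_mul]
  rw [e]
  refine (Finset.abs_sum_le_sum_abs _ _).trans ?_
  have h3 : ∀ A : Finset X, |G A * g A| ≤ G A ^ 2 / (2 * a) + a / 2 := by
    intro A
    rw [abs_mul]
    have h4 : |G A| * |g A| ≤ |G A| := mul_le_of_le_one_right (abs_nonneg _) (hg A)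
    refine h4.trans ?_
    have h5 : G A ^ 2 / (2 * a) + a / 2 = (G A ^ 2 + a ^ 2) / (2 * a) := by field_simp
    rw [h5, le_div_iff₀ (by positivity), ← sq_abs (G A)]
    nlinarith [sq_nonneg (|G A| - a)]
  refine (Finset.sum_le_sum fun A _ => h3 A).trans ?_
  rw [Finset.sum_add_distrib, ← Finset.sum_div]
  simp only [Finset.sum_const, card_univ, nsmul_eq_mul]
  have h6 : (∑ A : Finset X, G A ^ 2) / (2 * a) ≤ M.card * (K * T) / (2 * a) :=
    div_le_div_of_nonneg_right hG2 (by positivity)
  have h7 : M.card * (K * T) / (2 * a) = T * (M.card * K / (2 * a)) := by ring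
  rw [← hT]
  linarith

end count

section model
variable {ι : Type} [Fintype ι] [DecidableEq ι] {d N : ℕ}

def cfg (φ : ι → Fin N) (W : Finset ι) (x : Finset (Fin d → ι)) (A : Finset (Fin d → Fin N)) :
    Finset (Fin d → Fin N) :=
  (A \ Fintype.piFinset fun _ => W.image φ) ∪
    (x.filter fun t => ∀ i, t i ∈ W).image fun t => φ ∘ t

noncomputable def ind (S : Finset (Finset (Fin d → Fin N))) (B : Finset (Fin d → Fin N)) : ℝ :=
  if B ∈ S then 1 else 0

noncomputable def sig (S : Finset (Finset (Fin d → Fin N))) (W : Finset ι)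
    (x x' : Finset (Fin d → ι)) : ℝ :=
  ∑ φ : ι → Fin N, ∑ A : Finset (Fin d → Fin N), ind S (cfg φ W x A) * ind S (cfg φ W x' A)

lemma sum_update (v : ι) (G : (ι → Fin N) → ℝ) :
    ∑ φ : ι → Fin N, ∑ u : Fin N, G (Function.update φ v u) = N * ∑ φ : ι → Fin N, G φ := by
  have h : ∑ p : (ι → Fin N) × Fin N, G (Function.update p.1 v p.2) =
      ∑ p : (ι → Fin N) × Fin N, G p.1 := by
    refine Finset.sum_nbij' (fun p => (Function.update p.1 v p.2, p.1 v))
      (fun p => (Function.update p.1 v p.2, p.1 v)) ?_ ?_ ?_ ?_ ?_ <;> simp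
  rw [Fintype.sum_prod_type, Fintype.sum_prod_type] at h
  rw [h, Finset.mul_sum]
  simp

lemma cfg_update (φ : ι → Fin N) {W : Finset ι} {v : ι} (hv : v ∉ W) {u : Fin N}
    (hu : u ∉ W.image φ) (x x0 : Finset (Fin d → ι))
    (hx : ∀ t, (∀ i, t i ∈ insert v W) → ¬ (∀ i, t i ∈ W) → (t ∈ x0 ↔ t ∈ x))
    (A : Finset (Fin d → Fin N)) :
    cfg (Function.update φ v u) (insert v W) x A =
      cfg φ W x ((A \ ((Fintype.piFinset fun _ => insert u (W.image φ)) \
        Fintype.piFinset fun _ => W.image φ)) ∪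
        (x0.filter fun t => (∀ i, t i ∈ insert v W) ∧ ¬ ∀ i, t i ∈ W).image
          fun t => Function.update φ v u ∘ t) := by
  have hW : ∀ a ∈ W, Function.update φ v u a = φ a := fun a ha =>
    Function.update_of_ne (fun h : a = v => hv (h ▸ ha)) _ _
  have him : (insert v W).image (Function.update φ v u) = insert u (W.image φ) := by
    rw [Finset.image_insert, Function.update_self, Finset.image_congr (fun a ha => hW a ha)]
  have hcomp : ∀ t : Fin d → ι, (∀ i, t i ∈ W) → Function.update φ v u ∘ t = φ ∘ t :=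
    fun t ht => funext fun i => hW _ (ht i)
  have hnot : ∀ t : Fin d → ι, (∀ i, t i ∈ insert v W) → ¬ (∀ i, t i ∈ W) →
      ¬ ∀ i, (Function.update φ v u ∘ t) i ∈ W.image φ := by
    intro t h1 h2 h3
    push Not at h2
    obtain ⟨i, hi⟩ := h2
    have h4 : t i = v := by simpa [hi] using h1 i
    have h5 := h3 i
    simp only [Function.comp_apply, h4, Function.update_self] at h5
    exact hu h5
  unfold cfg
  rw [him]
  ext s
  simp only [mem_union, mem_sdiff, Fintype.mem_piFinset, mem_image (f := fun t : Fin d → ι => φ ∘ t),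
    mem_image (f := fun t : Fin d → ι => Function.update φ v u ∘ t), mem_filter]
  constructor
  · rintro (⟨h1, h2⟩ | ⟨t, ⟨h1, h2⟩, rfl⟩)
    · exact Or.inl ⟨Or.inl ⟨h1, fun h => h2 h.1⟩, fun h => h2 fun i => mem_insert_of_mem (h i)⟩
    · by_cases h3 : ∀ i, t i ∈ W
      · exact Or.inr ⟨t, ⟨h1, h3⟩, (hcomp t h3).symm⟩
      · exact Or.inl ⟨Or.inr ⟨t, ⟨(hx t h2 h3).mpr h1, h2, h3⟩, rfl⟩, hnot t h2 h3⟩
  · rintro (⟨⟨h1, h2⟩ | ⟨t, ⟨h1, h2, h4⟩, rfl⟩, h3⟩ | ⟨t, ⟨h1, h2⟩, rfl⟩)
    · exact Or.inl ⟨h1, fun h => h2 ⟨h, h3⟩⟩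
    · exact Or.inr ⟨t, ⟨(hx t h2 h4).mp h1, h2⟩, rfl⟩
    · exact Or.inr ⟨t, ⟨h1, fun i => mem_insert_of_mem (h2 i)⟩, hcomp t h2⟩

lemma ind_mul_abs (S : Finset (Finset (Fin d → Fin N))) (B B' : Finset (Fin d → Fin N)) :
    0 ≤ ind S B * ind S B' ∧ ind S B * ind S B' ≤ 1 := by
  unfold ind; split_ifs <;> simp

lemma sig_insert (S : Finset (Finset (Fin d → Fin N))) {W : Finset ι} {v : ι} (hv : v ∉ W)
    (x x' : Finset (Fin d → ι))
    (hx : ∀ t, (∀ i, t i ∈ insert v W) → ¬ (∀ i, t i ∈ W) → (t ∈ x ↔ t ∈ x'))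
    {a : ℝ} (ha : 0 < a) :
    |N * sig S (insert v W) x x' - N * sig S W x x'| ≤
      Fintype.card (ι → Fin N) * (Fintype.card (Finset (Fin d → Fin N)) *
        (N * 2 ^ ((Fintype.card ι + 1) ^ d) / (2 * a) + a / 2 + Fintype.card ι)) := by
  set T : ℝ := (Fintype.card (Finset (Fin d → Fin N)) : ℝ) with hT
  set K : ℝ := 2 ^ ((Fintype.card ι + 1) ^ d) with hK
  unfold sig
  rw [← sum_update v, Finset.mul_sum, ← Finset.sum_sub_distrib]
  refine (Finset.abs_sum_le_sum_abs _ _).trans ?_
  refine (Finset.sum_le_card_nsmul _ _ _ fun φ _ => ?_).trans (le_of_eq (by rw [card_univ, nsmul_eq_mul]))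
  set P := W.image φ with hP
  set g : Finset (Fin d → Fin N) → ℝ := fun A => ind S (cfg φ W x A) * ind S (cfg φ W x' A) with hg
  have hg0 : ∀ A, 0 ≤ g A := fun A => (ind_mul_abs S _ _).1
  have hg1 : ∀ A, g A ≤ 1 := fun A => (ind_mul_abs S _ _).2
  have hPc : P.card ≤ Fintype.card ι := card_image_le.trans (card_le_univ W)
  have hPc' : (P.card : ℝ) ≤ Fintype.card ι := by exact_mod_cast hPc
  have hvW : v ∉ W := hv
  have hv := var_ov (univ \ P)
    (fun u => (Fintype.piFinset fun _ : Fin d => insert u P) \ Fintype.piFinset fun _ => P)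
    (fun u => (x.filter fun t => (∀ i, t i ∈ insert v W) ∧ ¬ ∀ i, t i ∈ W).image
          fun t => Function.update φ v u ∘ t) ?_ ?_ (K := K) ?_ ha g
      (fun A => abs_le.mpr ⟨by linarith [hg0 A], hg1 A⟩)
  · rw [← Finset.sum_sdiff (subset_univ P)]
    have e1 : ∑ u ∈ univ \ P, ∑ A : Finset (Fin d → Fin N),
        ind S (cfg (Function.update φ v u) (insert v W) x A) *
          ind S (cfg (Function.update φ v u) (insert v W) x' A) =
        ∑ u ∈ univ \ P, ∑ A : Finset (Fin d → Fin N), g ((A \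
          ((Fintype.piFinset fun _ : Fin d => insert u P) \ Fintype.piFinset fun _ => P)) ∪
          (x.filter fun t => (∀ i, t i ∈ insert v W) ∧ ¬ ∀ i, t i ∈ W).image
          fun t => Function.update φ v u ∘ t) := by
      refine Finset.sum_congr rfl fun u hu => Finset.sum_congr rfl fun A _ => ?_
      have hu' : u ∉ W.image φ := (mem_sdiff.mp hu).2
      rw [cfg_update φ hvW hu' x x (fun _ _ _ => Iff.rfl), cfg_update φ hvW hu' x' x hx]
    rw [e1]
    have b1 : ∀ u : Fin N, 0 ≤ ∑ A : Finset (Fin d → Fin N),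
        ind S (cfg (Function.update φ v u) (insert v W) x A) *
          ind S (cfg (Function.update φ v u) (insert v W) x' A) :=
      fun u => Finset.sum_nonneg fun A _ => (ind_mul_abs S _ _).1
    have b2 : ∀ u : Fin N, ∑ A : Finset (Fin d → Fin N),
        ind S (cfg (Function.update φ v u) (insert v W) x A) *
          ind S (cfg (Function.update φ v u) (insert v W) x' A) ≤ T := by
      intro u
      have := Finset.sum_le_card_nsmul univ _ 1 (fun A _ => (ind_mul_abs S
        (cfg (Function.update φ v u) (insert v W) x A)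
        (cfg (Function.update φ v u) (insert v W) x' A)).2)
      simpa [hT] using this
    have b3 := Finset.sum_nonneg (s := P) fun u _ => b1 u
    have b4 := Finset.sum_le_card_nsmul P _ T fun u _ => b2 u
    rw [nsmul_eq_mul] at b4
    have b5 : 0 ≤ ∑ A : Finset (Fin d → Fin N), g A := Finset.sum_nonneg fun A _ => hg0 A
    have b6 : ∑ A : Finset (Fin d → Fin N), g A ≤ T := by
      have := Finset.sum_le_card_nsmul univ _ 1 (fun A _ => hg1 A)
      simpa [hT] using this
    have b7 : ((univ \ P).card : ℝ) = N - P.card := by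
      rw [Finset.card_sdiff_of_subset (subset_univ P), card_univ, Nat.cast_sub (card_le_univ P)]
      simp
    have hT0 : 0 ≤ T := by positivity
    have hK0 : 0 ≤ K := by positivity
    rw [b7, ← hT] at hv
    have b8 : T * (((N : ℝ) - P.card) * K / (2 * a) + a / 2) ≤ T * (N * K / (2 * a) + a / 2) := by
      refine mul_le_mul_of_nonneg_left ?_ hT0
      have : ((N : ℝ) - P.card) * K ≤ N * K :=
        mul_le_mul_of_nonneg_right (by linarith [Nat.cast_nonneg (α := ℝ) P.card]) hK0
      have := div_le_div_of_nonneg_right this (show 0 ≤ 2 * a by positivity)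
      linarith
    have b9 : (P.card : ℝ) * T ≤ T * Fintype.card ι := by nlinarith
    have b10 : (P.card : ℝ) * ∑ A : Finset (Fin d → Fin N), g A ≤ P.card * T :=
      mul_le_mul_of_nonneg_left b6 (by positivity)
    have b11 : 0 ≤ (P.card : ℝ) * ∑ A : Finset (Fin d → Fin N), g A := by positivity
    have hv' := abs_le.mp hv
    rw [abs_le]
    constructor <;> nlinarith [hv'.1, hv'.2]
  · intro u hu s hs
    have hu' : u ∉ P := by simpa using hu
    obtain ⟨t, ht, rfl⟩ := mem_image.mp hs
    obtain ⟨-, h1, h2⟩ := mem_filter.mp ht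
    simp only [mem_sdiff, Fintype.mem_piFinset, Function.comp_apply]
    constructor
    · intro i
      rcases mem_insert.mp (h1 i) with h | h
      · rw [h, Function.update_self]; exact mem_insert_self _ _
      · rw [Function.update_of_ne (fun h' : t i = v => hvW (h' ▸ h))]
        exact mem_insert_of_mem (mem_image_of_mem _ h)
    · intro h3
      push Not at h2
      obtain ⟨i, hi⟩ := h2
      have h4 : t i = v := by simpa [hi] using h1 i
      have h5 := h3 i
      rw [h4, Function.update_self] at h5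
      exact hu' h5
  · intro u hu u' hu' hne
    rw [Finset.disjoint_left]
    intro s h1 h2
    simp only [mem_sdiff, Fintype.mem_piFinset, mem_insert] at h1 h2
    apply h1.2
    intro i
    rcases h1.1 i with h | h
    · rcases h2.1 i with h' | h'
      · exact absurd (h.symm.trans h') hne
      · exact h'
    · exact h
  · intro u _
    rw [hK]
    refine pow_le_pow_right₀ (by norm_num) ?_
    refine (card_le_card sdiff_subset).trans ?_
    rw [Fintype.card_piFinset]
    simp only [Finset.prod_const, card_univ, Fintype.card_fin]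
    exact Nat.pow_le_pow_left ((card_insert_le _ _).trans (by omega)) d

end model

end Pool.Agent.H621Z.PD
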