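import Mathlib

set_option autoImplicit false

namespace Pool.Agent.H621Z.PD

open Finset

/-- finitely supported probability weights on the positive integers -/
structure PW where
  s : Finset ℕ
  w : ℕ → ℝ
  nonneg : ∀ n, 0 ≤ w n
  sum_one : ∑ n ∈ s, w n = 1
  pos : ∀ n ∈ s, 1 ≤ n

namespace PW

variable {V : Type*} [AddCommGroup V] [Module ℝ V]

def Ex (p : PW) (g : ℕ → V) : V := ∑ n ∈ p.s, p.w n • g n

lemma Ex_le (p : PW) {g h : ℕ → ℝ} (H : ∀ n ∈ p.s, g n ≤ h n) : p.Ex g ≤ p.Ex h := by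
  unfold Ex
  refine Finset.sum_le_sum fun n hn => ?_
  simp only [smul_eq_mul]
  exact mul_le_mul_of_nonneg_left (H n hn) (p.nonneg n)

lemma Ex_congr (p : PW) {g h : ℕ → V} (H : ∀ n ∈ p.s, g n = h n) : p.Ex g = p.Ex h := by
  unfold Ex
  exact Finset.sum_congr rfl fun n hn => by rw [H n hn]

lemma Ex_const (p : PW) (a : V) : p.Ex (fun _ => a) = a := by
  unfold Ex
  rw [← Finset.sum_smul, p.sum_one, one_smul]

lemma Ex_affine (p : PW) (g : ℕ → ℝ) (a b : ℝ) :
    p.Ex (fun n => a * g n + b) = a * p.Ex g + b := by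
  unfold Ex
  simp only [smul_eq_mul, mul_add, Finset.sum_add_distrib]
  rw [← Finset.sum_mul, p.sum_one, Finset.mul_sum]
  congr 1
  · exact Finset.sum_congr rfl fun n _ => by ring
  · ring

lemma Ex_le_const (p : PW) {g : ℕ → ℝ} {a : ℝ} (H : ∀ n ∈ p.s, g n ≤ a) : p.Ex g ≤ a := by
  have := p.Ex_le (g := g) (h := fun _ => a) H
  rwa [Ex_const] at this

lemma const_le_Ex (p : PW) {g : ℕ → ℝ} {a : ℝ} (H : ∀ n ∈ p.s, a ≤ g n) : a ≤ p.Ex g := by
  have := p.Ex_le (g := fun _ => a) (h := g) H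
  rwa [Ex_const] at this

lemma Ex_comm (p q : PW) (g : ℕ → ℕ → ℝ) :
    p.Ex (fun n => q.Ex (fun k => g n k)) = q.Ex (fun k => p.Ex (fun n => g n k)) := by
  unfold Ex
  simp only [smul_eq_mul, Finset.mul_sum]
  rw [Finset.sum_comm]
  exact Finset.sum_congr rfl fun k _ => Finset.sum_congr rfl fun n _ => by ring

section inner
variable {E : Type*} [NormedAddCommGroup E] [InnerProductSpace ℝ E]

lemma inner_Ex (p : PW) (u : E) (v : ℕ → E) :
    inner ℝ u (p.Ex v) = p.Ex (fun n => inner ℝ u (v n)) := by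
  unfold Ex
  rw [inner_sum]
  exact Finset.sum_congr rfl fun n _ => by rw [real_inner_smul_right, smul_eq_mul]

lemma Ex_inner (p : PW) (u : E) (v : ℕ → E) :
    inner ℝ (p.Ex v) u = p.Ex (fun n => inner ℝ (v n) u) := by
  rw [real_inner_comm, inner_Ex]
  exact p.Ex_congr fun n _ => real_inner_comm _ _

end inner

/-- the average of finitely many weights -/
noncomputable def avg {J : Type*} (I : Finset J) (hI : I.Nonempty) (p : J → PW) : PW where
  s := I.biUnion fun j => (p j).s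
  w := fun n => (1 / (I.card : ℝ)) * ∑ j ∈ I, if n ∈ (p j).s then (p j).w n else 0
  nonneg := fun n => by
    refine mul_nonneg (by positivity) (Finset.sum_nonneg fun j _ => ?_)
    split_ifs
    · exact (p j).nonneg n
    · exact le_rfl
  sum_one := by
    rw [← Finset.mul_sum, Finset.sum_comm]
    have : ∀ j ∈ I, (∑ n ∈ I.biUnion fun j => (p j).s,
        if n ∈ (p j).s then (p j).w n else 0) = 1 := by
      intro j hj
      rw [← Finset.sum_filter, Finset.filter_mem_eq_inter,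
        Finset.inter_eq_right.mpr (Finset.subset_biUnion_of_mem (fun j => (p j).s) hj)]
      exact (p j).sum_one
    rw [Finset.sum_congr rfl this]
    have h : (I.card : ℝ) ≠ 0 := by
      have := hI.card_pos
      positivity
    simp [h]
  pos := fun n hn => by
    obtain ⟨j, _, hj⟩ := Finset.mem_biUnion.mp hn
    exact (p j).pos n hj

lemma Ex_avg {J : Type*} (I : Finset J) (hI : I.Nonempty) (p : J → PW) (g : ℕ → ℝ) :
    (avg I hI p).Ex g = (1 / (I.card : ℝ)) * ∑ j ∈ I, (p j).Ex g := by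
  unfold Ex avg
  simp only [smul_eq_mul]
  have : ∀ n, ((1 / (I.card : ℝ)) * ∑ j ∈ I, if n ∈ (p j).s then (p j).w n else 0) * g n =
      (1 / (I.card : ℝ)) * ∑ j ∈ I, if n ∈ (p j).s then (p j).w n * g n else 0 := by
    intro n
    rw [mul_assoc, Finset.sum_mul]
    congr 1
    refine Finset.sum_congr rfl fun j _ => ?_
    split_ifs <;> simp
  simp only [this]
  rw [← Finset.mul_sum, Finset.sum_comm]
  congr 1
  refine Finset.sum_congr rfl fun j hj => ?_
  rw [← Finset.sum_filter, Finset.filter_mem_eq_inter,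
    Finset.inter_eq_right.mpr (Finset.subset_biUnion_of_mem (fun j => (p j).s) hj)]

lemma mem_avg {J : Type*} (I : Finset J) (hI : I.Nonempty) (p : J → PW) {n : ℕ}
    (hn : n ∈ (avg I hI p).s) : ∃ j ∈ I, n ∈ (p j).s :=
  Finset.mem_biUnion.mp hn

/-- approximate invariance under shifts by at most s0 -/
def Inv (p : PW) (s0 : ℕ) (ε : ℝ) : Prop :=
  ∀ g : ℕ → ℝ, (∀ n, |g n| ≤ 1) → ∀ s ≤ s0, |p.Ex (fun n => g (n + s)) - p.Ex g| ≤ ε

lemma Inv.mono {p : PW} {s0 s1 : ℕ} {ε ε' : ℝ} (h : p.Inv s0 ε) (hs : s1 ≤ s0) (he : ε ≤ ε') :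
    p.Inv s1 ε' := fun g hg s hs' => (h g hg s (hs'.trans hs)).trans he

lemma inv_avg {J : Type*} (I : Finset J) (hI : I.Nonempty) (p : J → PW) {s0 : ℕ} {ε : ℝ}
    (h : ∀ j ∈ I, (p j).Inv s0 ε) : (avg I hI p).Inv s0 ε := by
  intro g hg s hs
  rw [Ex_avg, Ex_avg, ← mul_sub, ← Finset.sum_sub_distrib, abs_mul]
  have hc : (0 : ℝ) < I.card := by exact_mod_cast hI.card_pos
  have h1 : |∑ j ∈ I, ((p j).Ex (fun n => g (n + s)) - (p j).Ex g)| ≤ I.card * ε := by
    refine (Finset.abs_sum_le_sum_abs _ _).trans ?_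
    have := Finset.sum_le_card_nsmul I _ ε (fun j hj => h j hj g hg s hs)
    simpa using this
  rw [abs_of_pos (by positivity)]
  calc 1 / (I.card : ℝ) * _ ≤ 1 / (I.card : ℝ) * (I.card * ε) :=
        mul_le_mul_of_nonneg_left h1 (by positivity)
    _ = ε := by field_simp

/-- shifting a bounded sequence changes a range sum by at most twice the shift -/
lemma sum_shift (g : ℕ → ℝ) (hg : ∀ n, |g n| ≤ 1) (L s : ℕ) :
    |∑ n ∈ range L, g (n + s) - ∑ n ∈ range L, g n| ≤ 2 * s := by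
  induction s with
  | zero => simp
  | succ s ih =>
    have h1 : ∑ n ∈ range L, g (n + (s + 1)) = ∑ n ∈ range L, g (n + s) + (g (L + s) - g s) := by
      have a := Finset.sum_range_succ (fun n => g (n + s)) L
      have b := Finset.sum_range_succ' (fun n => g (n + s)) L
      have c : ∑ n ∈ range L, g (n + (s + 1)) = ∑ n ∈ range L, g (n + 1 + s) :=
        Finset.sum_congr rfl fun n _ => by congr 1; ring
      simp only [zero_add] at b
      linarith
    rw [h1]
    have h2 := abs_le.mp (hg (L + s))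
    have h3 := abs_le.mp (hg s)
    have h4 := abs_le.mp ih
    push_cast
    rw [abs_le]
    constructor <;> linarith [h2.1, h2.2, h3.1, h3.2, h4.1, h4.2]

/-- the uniform weight on 1..L -/
noncomputable def unif (L : ℕ) (hL : 0 < L) : PW where
  s := (range L).map ⟨fun n => n + 1, add_left_injective 1⟩
  w := fun _ => 1 / (L : ℝ)
  nonneg := fun _ => by positivity
  sum_one := by
    have : (L : ℝ) ≠ 0 := by positivity
    simp [this]
  pos := fun n hn => by
    obtain ⟨m, _, rfl⟩ := Finset.mem_map.mp hn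
    simp

lemma exists_inv (s0 : ℕ) {ε : ℝ} (hε : 0 < ε) : ∃ p : PW, p.Inv s0 ε := by
  obtain ⟨L, hL⟩ := exists_nat_gt (2 * s0 / ε)
  have hL0 : (0 : ℝ) < L := lt_of_le_of_lt (by positivity) hL
  have hL1 : 0 < L := by exact_mod_cast hL0
  refine ⟨unif L hL1, fun g hg s hs => ?_⟩
  unfold Ex unif
  simp only [Finset.sum_map, Function.Embedding.coeFn_mk, smul_eq_mul]
  rw [← Finset.mul_sum, ← Finset.mul_sum, ← mul_sub, abs_mul, abs_of_pos (by positivity)]
  have h := sum_shift (fun n => g (n + 1)) (fun n => hg _) L s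
  have e : ∑ n ∈ range L, g (n + 1 + s) = ∑ n ∈ range L, g (n + s + 1) :=
    Finset.sum_congr rfl fun n _ => by congr 1; ring
  rw [e]
  have hs' : (s : ℝ) ≤ s0 := by exact_mod_cast hs
  rw [div_lt_iff₀ hε] at hL
  calc 1 / (L : ℝ) * _ ≤ 1 / (L : ℝ) * (2 * s) := mul_le_mul_of_nonneg_left h (by positivity)
    _ ≤ ε := by
      rw [div_mul_eq_mul_div, one_mul, div_le_iff₀ hL0]
      nlinarith

end PW

end Pool.Agent.H621Z.PD
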