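import Pool.Agent.H621Z.PD.Prob

set_option autoImplicit false

namespace Pool.Agent.H621Z.PD

open Finset

variable {E : Type*} [NormedAddCommGroup E] [InnerProductSpace ℝ E]

lemma abs_inner_le_of {u y : E} {c : ℝ} (hu : inner ℝ u u ≤ c) (hy : inner ℝ y y ≤ c) :
    |inner ℝ u y| ≤ c := by
  have h1 : (0 : ℝ) ≤ inner ℝ (u + y) (u + y) := real_inner_self_nonneg
  have h2 : (0 : ℝ) ≤ inner ℝ (u - y) (u - y) := real_inner_self_nonneg
  rw [real_inner_add_add_self] at h1
  rw [real_inner_sub_sub_self] at h2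
  rw [abs_le]; constructor <;> linarith

lemma abs_inner_le_amgm (u y : E) {a : ℝ} (ha : 0 < a) :
    |inner ℝ u y| ≤ (a * inner ℝ u u + inner ℝ y y / a) / 2 := by
  have h1 : (0 : ℝ) ≤ inner ℝ (a • u + y) (a • u + y) := real_inner_self_nonneg
  have h2 : (0 : ℝ) ≤ inner ℝ (a • u - y) (a • u - y) := real_inner_self_nonneg
  rw [real_inner_add_add_self] at h1
  rw [real_inner_sub_sub_self] at h2
  simp only [real_inner_smul_left, real_inner_smul_right] at h1 h2
  have e : (a * inner ℝ u u + inner ℝ y y / a) / 2 =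
      (a * (a * inner ℝ u u) + inner ℝ y y) / (2 * a) := by field_simp
  rw [e, abs_le]
  constructor
  · rw [neg_le, le_div_iff₀ (by positivity)]; nlinarith
  · rw [le_div_iff₀ (by positivity)]; nlinarith

lemma inner_Ex_self_le (p : PW) (v : ℕ → E) {c : ℝ} (hv : ∀ n, inner ℝ (v n) (v n) ≤ c) :
    inner ℝ (p.Ex v) (p.Ex v) ≤ c := by
  rw [PW.inner_Ex]
  refine p.Ex_le_const fun n _ => ?_
  rw [PW.Ex_inner]
  exact p.Ex_le_const fun m _ => (le_abs_self _).trans (abs_inner_le_of (hv m) (hv n))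

/-- the analytic step: two-level averaging over scales -/
lemma analytic_step (Y : ℕ → E) (v0 u : E) {c μ ε ε₁ : ℝ} {r D : ℕ} (hr : 0 < r) (hD : 0 < D)
    (hc0 : 0 ≤ c) (hc1 : c ≤ 1) (hμ0 : 0 ≤ μ) (hμ : μ ≤ 1 / 2) (hε : 0 < ε) (hε₁ : 0 ≤ ε₁)
    (hY : ∀ j, inner ℝ (Y j) (Y j) ≤ c) (hv0 : inner ℝ v0 v0 ≤ c) (hu : inner ℝ u u ≤ c)
    (key : ∀ j j', j < j' → j' < D + r →
      inner ℝ (Y j) (Y j') ≤ 2 * μ * inner ℝ v0 (Y j') + (1 - 2 * μ) * c + ε₁)
    (hsmall : ε₁ + 2 / r + 4 * r / D ≤ ε ^ 2) :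
    |(1 / ((D : ℝ) * r)) * ∑ j ∈ range D, ∑ s ∈ range r, inner ℝ u (Y (j + s))
      - μ * inner ℝ u v0| ≤ (1 - μ) * c + 2 * ε := by
  have hr' : (0 : ℝ) < r := by exact_mod_cast hr
  have hD' : (0 : ℝ) < D := by exact_mod_cast hD
  set R : ℕ → ℝ := fun j => inner ℝ v0 (Y j) with hR
  have hRb : ∀ j, |R j| ≤ 1 := fun j => (abs_inner_le_of hv0 (hY j)).trans hc1
  set S : ℝ := ∑ j ∈ range D, R j with hS
  have hshift : ∀ a ≤ r, |∑ j ∈ range D, R (j + a) - S| ≤ 2 * r := by
    intro a ha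
    have h := PW.sum_shift R hRb D a
    have : (a : ℝ) ≤ r := by exact_mod_cast ha
    linarith
  set y : ℕ → E := fun j => (1 / (r : ℝ)) • ∑ s ∈ range r, Y (j + s) - μ • v0 with hy
  -- expansion of the squared norm
  have hexp : ∀ j, inner ℝ (y j) (y j) =
      (1 / (r : ℝ)) ^ 2 * (∑ s ∈ range r, ∑ t ∈ range r, inner ℝ (Y (j + s)) (Y (j + t)))
        - 2 * μ * (1 / (r : ℝ)) * (∑ s ∈ range r, R (j + s)) + μ ^ 2 * inner ℝ v0 v0 := by
    intro j
    simp only [hy]
    rw [real_inner_sub_sub_self]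
    simp only [real_inner_smul_left, real_inner_smul_right]
    simp only [sum_inner, inner_sum]
    have : ∀ s, inner ℝ (Y (j + s)) v0 = R (j + s) := fun s => real_inner_comm _ _
    simp only [this]
    rw [Finset.sum_comm]
    ring
  have hpair : ∀ j < D, ∀ s < r, ∀ t < r, inner ℝ (Y (j + s)) (Y (j + t)) ≤
      2 * μ * R (j + max s t) + ((1 - 2 * μ) * c + ε₁) + (if s = t then 2 else 0) := by
    intro j hj s hs t ht
    rcases lt_trichotomy s t with h | h | h
    · rw [max_eq_right h.le, if_neg h.ne]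
      have := key (j + s) (j + t) (by omega) (by omega)
      simp only [hR]; linarith
    · subst h
      rw [max_self, if_pos rfl]
      have h1 := hY (j + s)
      have h2 := abs_le.mp (hRb (j + s))
      nlinarith [h2.1, h2.2]
    · rw [max_eq_left h.le, if_neg h.ne', real_inner_comm]
      have := key (j + t) (j + s) (by omega) (by omega)
      simp only [hR]; linarith
  have hsumA : ∑ j ∈ range D, ∑ s ∈ range r, ∑ t ∈ range r, inner ℝ (Y (j + s)) (Y (j + t)) ≤
      (r : ℝ) ^ 2 * (2 * μ * (S + 2 * r) + D * ((1 - 2 * μ) * c + ε₁)) + 2 * r * D := by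
    have h1 : ∑ j ∈ range D, ∑ s ∈ range r, ∑ t ∈ range r, inner ℝ (Y (j + s)) (Y (j + t)) ≤
        ∑ j ∈ range D, ∑ s ∈ range r, ∑ t ∈ range r,
          (2 * μ * R (j + max s t) + ((1 - 2 * μ) * c + ε₁) + (if s = t then 2 else 0)) :=
      Finset.sum_le_sum fun j hj => Finset.sum_le_sum fun s hs => Finset.sum_le_sum fun t ht =>
        hpair j (mem_range.mp hj) s (mem_range.mp hs) t (mem_range.mp ht)
    refine h1.trans ?_
    rw [Finset.sum_comm]
    have h2 : ∀ s ∈ range r, ∑ j ∈ range D, ∑ t ∈ range r,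
          (2 * μ * R (j + max s t) + ((1 - 2 * μ) * c + ε₁) + (if s = t then (2 : ℝ) else 0)) ≤
        r * (2 * μ * (S + 2 * r) + D * ((1 - 2 * μ) * c + ε₁)) + 2 * D := by
      intro s hs
      rw [Finset.sum_comm]
      have h3 : ∀ t ∈ range r, ∑ j ∈ range D,
          (2 * μ * R (j + max s t) + ((1 - 2 * μ) * c + ε₁) + (if s = t then (2 : ℝ) else 0)) ≤
          (2 * μ * (S + 2 * r) + D * ((1 - 2 * μ) * c + ε₁)) + (if s = t then (2 * D : ℝ) else 0) := by
        intro t ht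
        rw [Finset.sum_add_distrib, Finset.sum_add_distrib, ← Finset.mul_sum]
        have h4 := abs_le.mp (hshift (max s t)
          (max_le (mem_range.mp hs).le (mem_range.mp ht).le))
        have h5 : 2 * μ * ∑ j ∈ range D, R (j + max s t) ≤ 2 * μ * (S + 2 * r) :=
          mul_le_mul_of_nonneg_left (by linarith [h4.2]) (by positivity)
        simp only [Finset.sum_const, card_range, nsmul_eq_mul]
        split_ifs <;> linarith
      refine (Finset.sum_le_sum h3).trans ?_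
      rw [Finset.sum_add_distrib, Finset.sum_ite_eq, if_pos hs]
      simp only [Finset.sum_const, card_range, nsmul_eq_mul]
      exact le_rfl
    refine (Finset.sum_le_sum h2).trans ?_
    simp only [Finset.sum_const, card_range, nsmul_eq_mul]
    nlinarith
  have hsumB : (r : ℝ) * (S - 2 * r) ≤ ∑ j ∈ range D, ∑ s ∈ range r, R (j + s) := by
    rw [Finset.sum_comm]
    have h2 : ∀ s ∈ range r, S - 2 * r ≤ ∑ j ∈ range D, R (j + s) := by
      intro s hs
      have h4 := abs_le.mp (hshift s (mem_range.mp hs).le)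
      linarith [h4.1]
    have := Finset.card_nsmul_le_sum (range r) _ _ h2
    simpa using this
  have hsumy : ∑ j ∈ range D, inner ℝ (y j) (y j) ≤ D * ((1 - μ) ^ 2 * c + ε ^ 2) := by
    simp only [hexp]
    rw [Finset.sum_add_distrib, Finset.sum_sub_distrib, ← Finset.mul_sum, ← Finset.mul_sum]
    simp only [Finset.sum_const, card_range, nsmul_eq_mul]
    have e1 : (1 / (r : ℝ)) ^ 2 * (∑ j ∈ range D, ∑ s ∈ range r, ∑ t ∈ range r,
        inner ℝ (Y (j + s)) (Y (j + t))) ≤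
        (2 * μ * (S + 2 * r) + D * ((1 - 2 * μ) * c + ε₁)) + D * (2 / r) := by
      refine (mul_le_mul_of_nonneg_left hsumA (by positivity)).trans (le_of_eq ?_)
      field_simp
    have e2 : 2 * μ * (S - 2 * r) ≤
        2 * μ * (1 / (r : ℝ)) * ∑ j ∈ range D, ∑ s ∈ range r, R (j + s) := by
      have := mul_le_mul_of_nonneg_left hsumB (show 0 ≤ 2 * μ * (1 / (r : ℝ)) by positivity)
      refine le_trans (le_of_eq ?_) this
      field_simp
    have e3 : (D : ℝ) * (μ ^ 2 * inner ℝ v0 v0) ≤ D * (μ ^ 2 * c) :=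
      mul_le_mul_of_nonneg_left (mul_le_mul_of_nonneg_left hv0 (by positivity)) hD'.le
    have e4 : 8 * μ * r ≤ D * (4 * r / D) := by
      have : (D : ℝ) * (4 * r / D) = 4 * r := by field_simp
      rw [this]; nlinarith
    have e5 : (D : ℝ) * (ε₁ + 2 / r + 4 * r / D) ≤ D * ε ^ 2 :=
      mul_le_mul_of_nonneg_left hsmall hD'.le
    nlinarith
  -- conclude
  have hrew : (1 / ((D : ℝ) * r)) * ∑ j ∈ range D, ∑ s ∈ range r, inner ℝ u (Y (j + s))
      - μ * inner ℝ u v0 = (1 / (D : ℝ)) * ∑ j ∈ range D, inner ℝ u (y j) := by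
    simp only [hy, inner_sub_right, real_inner_smul_right, inner_sum]
    rw [Finset.sum_sub_distrib, ← Finset.mul_sum]
    simp only [Finset.sum_const, card_range, nsmul_eq_mul]
    field_simp
  rw [hrew, abs_mul, abs_of_pos (by positivity : (0 : ℝ) < 1 / (D : ℝ))]
  set a : ℝ := (1 - μ) + ε with ha
  have ha0 : 0 < a := by linarith
  have h1 : |∑ j ∈ range D, inner ℝ u (y j)| ≤
      ∑ j ∈ range D, (a * c + inner ℝ (y j) (y j) / a) / 2 := by
    refine (Finset.abs_sum_le_sum_abs _ _).trans (Finset.sum_le_sum fun j _ => ?_)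
    refine (abs_inner_le_amgm u (y j) ha0).trans ?_
    have := mul_le_mul_of_nonneg_left hu ha0.le
    linarith
  have h2 : ∑ j ∈ range D, (a * c + inner ℝ (y j) (y j) / a) / 2 =
      (D * (a * c) + (∑ j ∈ range D, inner ℝ (y j) (y j)) / a) / 2 := by
    rw [← Finset.sum_div, Finset.sum_add_distrib, ← Finset.sum_div]
    simp
  have h3 : (∑ j ∈ range D, inner ℝ (y j) (y j)) / a ≤ D * (a * c + ε) := by
    rw [div_le_iff₀ ha0]
    refine hsumy.trans ?_
    rw [mul_assoc]
    refine mul_le_mul_of_nonneg_left ?_ hD'.le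
    have h4 : (1 - μ) ^ 2 ≤ a ^ 2 := by
      apply pow_le_pow_left₀ <;> linarith
    have h5 : (1 - μ) ^ 2 * c ≤ a ^ 2 * c := mul_le_mul_of_nonneg_right h4 hc0
    have h6 : ε ^ 2 ≤ ε * a := by nlinarith
    nlinarith
  have h4 : |∑ j ∈ range D, inner ℝ u (y j)| ≤ D * (a * c + ε / 2) := by
    rw [h2] at h1; linarith
  calc 1 / (D : ℝ) * _ ≤ 1 / (D : ℝ) * (D * (a * c + ε / 2)) :=
        mul_le_mul_of_nonneg_left h4 (by positivity)
    _ = a * c + ε / 2 := by field_simp
    _ ≤ (1 - μ) * c + 2 * ε := by rw [ha]; nlinarith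

end Pool.Agent.H621Z.PD
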